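import Pool.Agent.Lib.ForcingU.Model

/-!
Ordered pairs, graphs of functions, comparability of cardinals, finite counting.
-/

namespace Pool.Agent.Lib.ForcingU

open Pool.Agent.Lib.Forcing

universe w

section Abstract

universe u

variable {M : Type u} {E : M → M → Prop}

theorem pr_unique (h : ZFC E) {x y p q : M} (hp : Pr E x y p) (hq : Pr E x y q) : p = q :=
  h.ext _ _ fun z => (hp z).trans (hq z).symm

theorem pr_inj (h : ZFC E) {x y x' y' p : M} (hp : Pr E x y p) (hq : Pr E x' y' p) :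
    x = x' ∧ y = y' := by
  have key : ∀ {x y x' y' : M}, Pr E x y p → Pr E x' y' p → x = x' ∧ (y = x' ∨ y = y') := by
    intro x y x' y' hp hq
    obtain ⟨s, hs⟩ := h.pair x x
    obtain ⟨d, hd⟩ := h.pair x y
    constructor
    · rcases (hq s).1 ((hp s).2 (Or.inl fun t => by simp [hs t])) with h1 | h1
      · exact (h1 x).1 ((hs x).2 (Or.inl rfl))
      · have := (hs x').1 ((h1 x').2 (Or.inl rfl))
        simp only [or_self] at this
        exact this.symm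
    · rcases (hq d).1 ((hp d).2 (Or.inr hd)) with h1 | h1
      · exact Or.inl ((h1 y).1 ((hd y).2 (Or.inr rfl)))
      · exact (h1 y).1 ((hd y).2 (Or.inr rfl))
  obtain ⟨a, b⟩ := key hp hq
  obtain ⟨c, d⟩ := key hq hp
  refine ⟨a, ?_⟩
  rcases b with b | b
  · rcases d with d | d
    · rw [b, d, a]
    · exact d.symm
  · exact b

theorem Fn.unique {A f x y y' : M} {R : M → M → Prop} (h : ZFC E) (hf : Fn E A R f)
    (h1 : Ap E f x y) (h2 : Ap E f x y') : y = y' := by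
  obtain ⟨p, hp, hpf⟩ := h1
  obtain ⟨a, b, ha, hab⟩ := hf.1 p hpf
  obtain ⟨rfl, rfl⟩ := pr_inj h hp hab
  exact (hf.2.1 x ha).unique ⟨p, hp, hpf⟩ h2

theorem Fn.dom {A f x y : M} {R : M → M → Prop} (h : ZFC E) (hf : Fn E A R f)
    (h1 : Ap E f x y) : E x A := by
  obtain ⟨p, hp, hpf⟩ := h1
  obtain ⟨a, b, ha, hab⟩ := hf.1 p hpf
  obtain ⟨rfl, rfl⟩ := pr_inj h hp hab
  exact ha

theorem Fn.ext {A A' f g : M} {R R' : M → M → Prop} (h : ZFC E) (hf : Fn E A R f)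
    (hg : Fn E A' R' g) (e : ∀ x y, Ap E f x y ↔ Ap E g x y) : f = g := by
  refine h.ext _ _ fun p => ⟨fun hp => ?_, fun hp => ?_⟩
  · obtain ⟨a, b, -, hab⟩ := hf.1 p hp
    obtain ⟨q, hq, hqg⟩ := (e a b).1 ⟨p, hab, hp⟩
    rwa [pr_unique h hab hq]
  · obtain ⟨a, b, -, hab⟩ := hg.1 p hp
    obtain ⟨q, hq, hqg⟩ := (e a b).2 ⟨p, hab, hp⟩
    rwa [pr_unique h hab hq]

theorem Fn.mono {A f : M} {R R' : M → M → Prop} (hf : Fn E A R f)
    (h : ∀ x y, Ap E f x y → R x y → R' x y) : Fn E A R' f :=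
  ⟨hf.1, hf.2.1, fun x y hxy => h x y hxy (hf.2.2 x y hxy)⟩

end Abstract

variable {B : Type w} [CompleteBooleanAlgebra B]

/-- Ordered pair of names. -/
def opN (x y : Nm B) : Nm B := upN (upN x x) (upN x y)

theorem Ult.pr_opN (U : Ult B) (x y : Nm B) : Pr U.E (U.cl x) (U.cl y) (U.cl (opN x y)) := by
  intro z
  rw [opN, U.E_upN]
  refine or_congr ⟨fun h t => ?_, fun h => U.ext' _ _ fun t => ?_⟩
    ⟨fun h t => ?_, fun h => U.ext' _ _ fun t => ?_⟩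
  · rw [h, U.E_upN, or_self]
  · rw [h, U.E_upN, or_self]
  · rw [h, U.E_upN]
  · rw [h, U.E_upN]

theorem Ult.pr_iff (U : Ult B) (x y : Nm B) (p : U.M) :
    Pr U.E (U.cl x) (U.cl y) p ↔ p = U.cl (opN x y) :=
  ⟨fun h => pr_unique U.zfc h (U.pr_opN x y), fun h => h ▸ U.pr_opN x y⟩

theorem Ult.ap_iff (U : Ult B) (f : U.M) (x y : Nm B) :
    Ap U.E f (U.cl x) (U.cl y) ↔ U.E (U.cl (opN x y)) f :=
  ⟨fun ⟨_, hp, h⟩ => (U.pr_iff x y _).1 hp ▸ h, fun h => ⟨_, U.pr_opN x y, h⟩⟩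

theorem Ult.opN_inj (U : Ult B) {x y x' y' : Nm B} :
    U.cl (opN x y) = U.cl (opN x' y') ↔ U.cl x = U.cl x' ∧ U.cl y = U.cl y' := by
  constructor
  · intro h
    exact pr_inj U.zfc (U.pr_opN x y) (h ▸ U.pr_opN x' y')
  · rintro ⟨h1, h2⟩
    rw [← U.pr_iff, ← h1, ← h2]
    exact U.pr_opN x y

/-- The name of a set of ordered pairs. -/
def grN {ι : Type w} (X Y : ι → Nm B) (v : ι → B) : Nm B := ⟨ι, fun i => opN (X i) (Y i), v⟩

theorem Ult.ap_grN (U : Ult B) {ι : Type w} (X Y : ι → Nm B) (v : ι → B) (i : ι) (h : U.P (v i)) :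
    Ap U.E (U.cl (grN X Y v)) (U.cl (X i)) (U.cl (Y i)) :=
  (U.ap_iff _ _ _).2 (U.E_intro (grN X Y v) i h)

theorem ap_elim {ι : Type w} (X Y : ι → Nm B) (v : ι → B) (P : ∀ U : Ult B, U.M → U.M → Prop)
    [∀ x y, Rep (fun U => P U (U.cl x) (U.cl y))]
    (h : ∀ U i, U.P (v i) → P U (U.cl (X i)) (U.cl (Y i))) (U : Ult B) (a b : U.M)
    (hab : Ap U.E (U.cl (grN X Y v)) a b) : P U a b := by
  obtain ⟨p, hp, h'⟩ := hab
  refine mem_elim (grN X Y v) (fun U p => ∀ a b, Pr U.E a b p → P U a b) ?_ U p h' a b hp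
  intro V i hi a b hp
  obtain ⟨rfl, rfl⟩ := pr_inj V.zfc hp (V.pr_opN (X i) (Y i))
  exact h V i hi

theorem Ult.ap_grN_fin (U : Ult B) {ι : Type w} [Finite ι] (X Y : ι → Nm B) (v : ι → B)
    (a b : U.M) : Ap U.E (U.cl (grN X Y v)) a b ↔
      ∃ i, U.P (v i) ∧ a = U.cl (X i) ∧ b = U.cl (Y i) := by
  obtain ⟨a, rfl⟩ := U.cl_surj a
  obtain ⟨b, rfl⟩ := U.cl_surj b
  have : Finite (grN X Y v).ι := ‹Finite ι›
  rw [U.ap_iff, U.E_fin]
  simp only [grN, U.opN_inj]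

theorem grN_dom {ι : Type w} (X Y : ι → Nm B) (v : ι → B) (A : Nm B)
    (h : ∀ (U : Ult B) i, U.P (v i) → U.E (U.cl (X i)) (U.cl A)) (U : Ult B) (p : U.M)
    (hp : U.E p (U.cl (grN X Y v))) : ∃ x y, U.E x (U.cl A) ∧ Pr U.E x y p :=
  mem_elim (grN X Y v) (fun U p => ∃ x y, U.E x (U.cl A) ∧ Pr U.E x y p)
    (fun V i hi => ⟨_, _, h V i hi, V.pr_opN _ _⟩) U p hp

end Pool.Agent.Lib.ForcingU
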