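import Pool.Agent.Lib.ForcingU.Func

/-!
The complete Boolean algebra of regular lower sets of a preorder, and the forcing relation.
-/

namespace Pool.Agent.Lib.ForcingU

open Pool.Agent.Lib.Forcing

universe w

/-- Regular lower sets of a preorder. -/
@[ext] structure RO (P : Type w) [Preorder P] : Type w where
  s : Set P
  lower : ∀ {p q}, q ≤ p → p ∈ s → q ∈ s
  reg : ∀ p, (∀ q ≤ p, ∃ r ≤ q, r ∈ s) → p ∈ s

namespace RO

variable {P : Type w} [Preorder P]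

instance : PartialOrder (RO P) where
  le a b := a.s ⊆ b.s
  le_refl _ := subset_rfl
  le_trans _ _ _ := Set.Subset.trans
  le_antisymm _ _ h1 h2 := RO.ext (Set.Subset.antisymm h1 h2)

theorem le_def {a b : RO P} : a ≤ b ↔ a.s ⊆ b.s := Iff.rfl

instance : InfSet (RO P) where
  sInf S := ⟨{p | ∀ a ∈ S, p ∈ a.s}, fun h hp a ha => a.lower h (hp a ha),
    fun p hp a ha => a.reg p fun q hq => (hp q hq).imp fun _ hr => ⟨hr.1, hr.2 a ha⟩⟩

/-- The regularisation of a set of conditions. -/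
def hull (A : Set P) : RO P :=
  ⟨{p | ∀ q ≤ p, ∃ r ≤ q, ∃ a ∈ A, r ≤ a}, fun h hp q hq => hp q (hq.trans h), fun p hp q hq => by
    obtain ⟨r, hr, h⟩ := hp q hq
    obtain ⟨t, ht, h'⟩ := h r le_rfl
    exact ⟨t, ht.trans hr, h'⟩⟩

instance : CompleteLattice (RO P) :=
  completeLatticeOfInf (RO P) fun _ =>
    ⟨fun a ha _ hp => hp a ha, fun _ hb _ hp _ ha => hb ha hp⟩

theorem mem_sInf {S : Set (RO P)} {p : P} : p ∈ (sInf S).s ↔ ∀ a ∈ S, p ∈ a.s := Iff.rfl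

theorem mem_inf {a b : RO P} {p : P} : p ∈ (a ⊓ b).s ↔ p ∈ a.s ∧ p ∈ b.s := by
  rw [← sInf_pair, mem_sInf]
  simp

theorem mem_sSup {S : Set (RO P)} {p : P} :
    p ∈ (sSup S).s ↔ ∀ q ≤ p, ∃ r ≤ q, ∃ a ∈ S, r ∈ a.s := by
  have : sSup S = hull {r | ∃ a ∈ S, r ∈ a.s} := by
    apply le_antisymm
    · exact sSup_le fun a ha p hp q hq => ⟨q, le_rfl, q, ⟨a, ha, a.lower hq hp⟩, le_rfl⟩
    · intro p hp
      refine (sSup S).reg p fun q hq => ?_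
      obtain ⟨r, hr, t, ⟨a, ha, ht⟩, hrt⟩ := hp q hq
      exact ⟨r, hr, le_sSup ha (a.lower hrt ht)⟩
  rw [this]
  refine forall₂_congr fun q _ => exists_congr fun r => and_congr_right fun _ => ?_
  exact ⟨fun ⟨t, ⟨a, ha, ht⟩, hrt⟩ => ⟨a, ha, a.lower hrt ht⟩,
    fun ⟨a, ha, ht⟩ => ⟨r, ⟨a, ha, ht⟩, le_rfl⟩⟩

theorem mem_sup {a b : RO P} {p : P} :
    p ∈ (a ⊔ b).s ↔ ∀ q ≤ p, ∃ r ≤ q, r ∈ a.s ∨ r ∈ b.s := by
  rw [← sSup_pair, mem_sSup]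
  simp

theorem not_mem_bot (p : P) : p ∉ (⊥ : RO P).s := by
  rw [← sSup_empty, mem_sSup]
  intro h
  simpa using h p le_rfl

/-- Complement. -/
def cpl (a : RO P) : RO P :=
  ⟨{p | ∀ q ≤ p, q ∉ a.s}, fun h hp q hq => hp q (hq.trans h), fun p hp q hq hqa => by
    obtain ⟨r, hr, h⟩ := hp q hq
    exact h r le_rfl (a.lower hr hqa)⟩

instance : CompleteBooleanAlgebra (RO P) where
  __ := (inferInstance : CompleteLattice (RO P))
  le_sup_inf a b c p hp := by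
    rw [mem_inf, mem_sup, mem_sup] at hp
    rw [mem_sup]
    intro q hq
    obtain ⟨r, hr, h | h⟩ := hp.1 q hq
    · exact ⟨r, hr, Or.inl h⟩
    · obtain ⟨t, ht, h' | h'⟩ := hp.2 r (hr.trans hq)
      · exact ⟨t, ht.trans hr, Or.inl h'⟩
      · exact ⟨t, ht.trans hr, Or.inr (mem_inf.2 ⟨b.lower ht h, h'⟩)⟩
  compl := cpl
  inf_compl_le_bot a p hp := ((mem_inf.1 hp).2 p le_rfl (mem_inf.1 hp).1).elim
  top_le_sup_compl a p _ := by
    rw [mem_sup]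
    intro q _
    by_cases h : ∃ r ≤ q, r ∈ a.s
    · exact h.imp fun r hr => ⟨hr.1, Or.inl hr.2⟩
    · exact ⟨q, le_rfl, Or.inr fun r hr hra => h ⟨r, hr, hra⟩⟩

theorem mem_iSup {ι : Sort*} {d : ι → RO P} {p : P} :
    p ∈ (⨆ i, d i).s ↔ ∀ q ≤ p, ∃ r ≤ q, ∃ i, r ∈ (d i).s := by
  rw [iSup, mem_sSup]
  simp

/-- The Boolean value of a condition. -/
def cd (p : P) : RO P := hull {p}

theorem mem_hull {A : Set P} {a p : P} (ha : a ∈ A) (h : p ≤ a) : p ∈ (hull A).s :=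
  fun q hq => ⟨q, le_rfl, a, ha, hq.trans h⟩

theorem cd_le {p : P} {b : RO P} : cd p ≤ b ↔ p ∈ b.s := by
  refine ⟨fun h => h (mem_hull rfl le_rfl), fun h q hq => b.reg q fun r hr => ?_⟩
  obtain ⟨t, ht, a, rfl, h'⟩ := hq r hr
  exact ⟨t, ht, b.lower h' h⟩

end RO

variable {P : Type w} [Preorder P]

/-- `p` forces `Φ`. -/
def Frc (p : P) (Φ : Ult (RO P) → Prop) : Prop := ∀ V : Ult (RO P), V.P (RO.cd p) → Φ V

namespace Frc

variable {p q : P} {Φ Ψ : Ult (RO P) → Prop}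

theorem iff_bv [Rep Φ] : Frc p Φ ↔ p ∈ (bv Φ).s := by
  rw [← RO.cd_le]
  exact ⟨fun h => Ult.le_of fun V hV => (bv_iff Φ V).2 (h V hV),
    fun h V hV => (bv_iff Φ V).1 (V.mono h hV)⟩

theorem iff_val {b : RO P} : Frc p (fun V => V.P b) ↔ p ∈ b.s := by
  rw [← RO.cd_le]
  exact ⟨fun h => Ult.le_of h, fun h V hV => V.mono h hV⟩

theorem mono (h : q ≤ p) (hp : Frc p Φ) : Frc q Φ := fun V hV =>
  hp V (V.mono (RO.cd_le.2 (RO.mem_hull rfl h)) hV)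

theorem imp (hp : Frc p Φ) (h : ∀ V, Φ V → Ψ V) : Frc p Ψ := fun V hV => h V (hp V hV)

theorem exists_ult (p : P) : ∃ V : Ult (RO P), V.P (RO.cd p) :=
  Ult.exists_mem fun h => RO.not_mem_bot p (h ▸ RO.mem_hull (A := {p}) rfl le_rfl)

theorem ex (h : Frc p Φ) : ∃ V, Φ V := (exists_ult p).imp fun V hV => h V hV

theorem const {c : Prop} (h : Frc p fun _ => c) : c := h.ex.choose_spec

theorem and (h1 : Frc p Φ) (h2 : Frc p Ψ) : Frc p fun V => Φ V ∧ Ψ V :=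
  fun V hV => ⟨h1 V hV, h2 V hV⟩

theorem of_dense [Rep Φ] (h : ∀ q ≤ p, ∃ r ≤ q, Frc r Φ) : Frc p Φ :=
  iff_bv.2 ((bv Φ).reg p fun q hq => (h q hq).imp fun _ hr => ⟨hr.1, iff_bv.1 hr.2⟩)

theorem of_not [Rep Φ] (h : ¬ Frc p fun V => ¬ Φ V) : ∃ q ≤ p, Frc q Φ := by
  by_contra hc
  apply h
  intro V hV hΦ
  have : RO.cd p ≤ (bv Φ)ᶜ := RO.cd_le.2 fun q hq hqa => hc ⟨q, hq, iff_bv.2 hqa⟩
  exact (V.compl _).1 (V.mono this hV) ((bv_iff Φ V).2 hΦ)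

theorem decide (p : P) (Φ : Ult (RO P) → Prop) [Rep Φ] :
    ∃ q ≤ p, Frc q Φ ∨ Frc q fun V => ¬ Φ V := by
  by_cases h : Frc p fun V => ¬ Φ V
  · exact ⟨p, le_rfl, Or.inr h⟩
  · exact (of_not h).imp fun q hq => ⟨hq.1, Or.inl hq.2⟩

/-- To force `Φ` it is enough to refute its negation below every stronger condition. -/
theorem by_contra [Rep Φ] (h : ∀ q ≤ p, Frc q (fun V => ¬ Φ V) → False) : Frc p Φ :=
  of_dense fun q hq => by
    obtain ⟨r, hr, h1 | h1⟩ := decide q Φ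
    · exact ⟨r, hr, h1⟩
    · exact (h r (hr.trans hq) h1).elim

theorem all [Rep Φ] (h : ∀ q : P, Frc q Φ) (V : Ult (RO P)) : Φ V := by
  have : (⊤ : RO P) ≤ bv Φ := fun q _ => iff_bv.1 (h q)
  exact (bv_iff Φ V).1 (V.mono this V.top)

theorem all_dense [Rep Φ] (h : ∀ q : P, ∃ r ≤ q, Frc r Φ) (V : Ult (RO P)) : Φ V :=
  all (fun _ => of_dense fun q _ => h q) V

theorem all_contra [Rep Φ] (h : ∀ q : P, Frc q (fun V => ¬ Φ V) → False) (V : Ult (RO P)) : Φ V :=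
  all (fun _ => by_contra fun q _ => h q) V

theorem hull {A : Set P} (h : Frc p fun V => V.P (RO.hull A)) : ∃ r ≤ p, ∃ a ∈ A, r ≤ a :=
  iff_val.1 h p le_rfl

theorem hull_intro {A : Set P} {a : P} (ha : a ∈ A) (h : p ≤ a) :
    Frc p fun V => V.P (RO.hull A) := iff_val.2 (RO.mem_hull ha h)

theorem mem {a y : Nm (RO P)} (h : Frc p fun V => V.E (V.cl a) (V.cl y)) :
    ∃ q ≤ p, ∃ i, q ∈ (y.val i).s ∧ Frc q fun V => V.cl a = V.cl (y.fn i) := by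
  have : p ∈ (Nm.mem a y).s := iff_val.1 h
  rw [Nm.mem, RO.mem_iSup] at this
  obtain ⟨q, hq, i, hi⟩ := this p le_rfl
  rw [RO.mem_inf] at hi
  exact ⟨q, hq, i, hi.1, (iff_val.2 hi.2).imp fun V hV => V.cl_eq.2 hV⟩

theorem wit (Q : ∀ U : Ult (RO P), U.M → Prop) [∀ x, Rep (fun U => Q U (U.cl x))]
    (h : Frc p fun V => ∃ a, Q V a) : ∃ x : Nm (RO P), Frc p fun V => Q V (V.cl x) :=
  (exists_witness Q).imp fun _ hx => h.imp hx

end Frc

end Pool.Agent.Lib.ForcingU
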