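import Pool.Agent.Lib.ForcingU.Names

/-!
Predicates on ultrafilters that are represented by a Boolean value; closure under first-order
connectives; density lemmas.
-/

namespace Pool.Agent.Lib.ForcingU

open Pool.Agent.Lib.Forcing

universe w

variable {B : Type w} [CompleteBooleanAlgebra B]

/-- `P` has a Boolean value. -/
class Rep (P : Ult B → Prop) : Prop where
  ex : ∃ c : B, ∀ U, U.P c ↔ P U

/-- The Boolean value of a represented predicate. -/
noncomputable def bv (P : Ult B → Prop) [h : Rep P] : B := h.ex.choose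

theorem bv_iff (P : Ult B → Prop) [h : Rep P] (U : Ult B) : U.P (bv P) ↔ P U := h.ex.choose_spec U

namespace Rep

theorem congr {P Q : Ult B → Prop} [h : Rep P] (e : ∀ U, P U ↔ Q U) : Rep Q :=
  ⟨h.ex.imp fun _ hc U => (hc U).trans (e U)⟩

instance (priority := low) const (p : Prop) : Rep (fun _ : Ult B => p) := by
  by_cases h : p
  · exact ⟨⊤, fun U => by simp [h, U.top]⟩
  · exact ⟨⊥, fun U => by simp [h, U.bot]⟩

instance val (c : B) : Rep (fun U : Ult B => U.P c) := ⟨c, fun _ => Iff.rfl⟩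

instance mem (x y : Nm B) : Rep (fun U : Ult B => U.E (U.cl x) (U.cl y)) :=
  ⟨Nm.mem x y, fun _ => Iff.rfl⟩

instance eq (x y : Nm B) : Rep (fun U : Ult B => U.cl x = U.cl y) :=
  ⟨Nm.eqv x y, fun U => U.cl_eq.symm⟩

instance not (P : Ult B → Prop) [Rep P] : Rep (fun U => ¬ P U) :=
  ⟨(bv P)ᶜ, fun U => by rw [U.compl, bv_iff]⟩

instance ne (x y : Nm B) : Rep (fun U : Ult B => U.cl x ≠ U.cl y) :=
  Rep.not (fun U : Ult B => U.cl x = U.cl y)

instance and (P Q : Ult B → Prop) [Rep P] [Rep Q] : Rep (fun U => P U ∧ Q U) :=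
  ⟨bv P ⊓ bv Q, fun U => by rw [U.inf, bv_iff, bv_iff]⟩

instance or (P Q : Ult B → Prop) [Rep P] [Rep Q] : Rep (fun U => P U ∨ Q U) :=
  ⟨bv P ⊔ bv Q, fun U => by rw [U.sup, bv_iff, bv_iff]⟩

instance imp (P Q : Ult B → Prop) [Rep P] [Rep Q] : Rep (fun U => P U → Q U) :=
  ⟨(bv P)ᶜ ⊔ bv Q, fun U => by rw [U.sup, U.compl, bv_iff, bv_iff]; tauto⟩

instance iff (P Q : Ult B → Prop) [Rep P] [Rep Q] : Rep (fun U => P U ↔ Q U) :=
  Rep.congr (P := fun U => (P U → Q U) ∧ (Q U → P U)) fun _ => iff_iff_implies_and_implies.symm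

end Rep

theorem bv_congr (Q : ∀ U : Ult B, U.M → Prop) [∀ x, Rep (fun U => Q U (U.cl x))] (x y : Nm B) :
    Nm.eqv x y ⊓ bv (fun U => Q U (U.cl x)) ≤ bv (fun U => Q U (U.cl y)) := by
  refine Ult.le_of fun U hU => ?_
  rw [U.inf, bv_iff, ← U.cl_eq] at hU
  rw [bv_iff, ← hU.1]
  exact hU.2

/-- The maximum principle for represented predicates. -/
theorem exists_witness (Q : ∀ U : Ult B, U.M → Prop) [∀ x, Rep (fun U => Q U (U.cl x))] :
    ∃ x0 : Nm B, ∀ U : Ult B, (∃ a, Q U a) → Q U (U.cl x0) := by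
  obtain ⟨x0, h⟩ := Nm.max_principle (fun x => bv (fun U => Q U (U.cl x))) (bv_congr Q)
  refine ⟨x0, fun U ⟨a, ha⟩ => ?_⟩
  obtain ⟨x, rfl⟩ := U.cl_surj a
  exact (bv_iff (fun U => Q U (U.cl x0)) U).1
    (U.mono (h x) ((bv_iff (fun U => Q U (U.cl x)) U).2 ha))

namespace Rep

instance exists_ (Q : ∀ U : Ult B, U.M → Prop) [∀ x, Rep (fun U => Q U (U.cl x))] :
    Rep (fun U => ∃ a, Q U a) := by
  obtain ⟨x0, h⟩ := exists_witness Q
  exact Rep.congr (P := fun U => Q U (U.cl x0)) fun U => ⟨fun h => ⟨_, h⟩, h U⟩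

instance all (Q : ∀ U : Ult B, U.M → Prop) [∀ x, Rep (fun U => Q U (U.cl x))] :
    Rep (fun U => ∀ a, Q U a) :=
  Rep.congr (P := fun U => ¬ ∃ a, ¬ Q U a) fun U => by simp

instance existsUnique (Q : ∀ U : Ult B, U.M → Prop) [∀ x, Rep (fun U => Q U (U.cl x))] :
    Rep (fun U => ∃! a, Q U a) :=
  Rep.congr (P := fun U => ∃ a, Q U a ∧ ∀ b, Q U b → b = a) fun _ => Iff.rfl

end Rep

/-- A represented predicate that holds whenever some `d i` is in the ultrafilter holds whenever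
their supremum is. -/
theorem sup_elim {ι : Sort*} (d : ι → B) (P : Ult B → Prop) [Rep P]
    (h : ∀ U i, U.P (d i) → P U) (U : Ult B) (hU : U.P (⨆ i, d i)) : P U := by
  rw [← bv_iff P]
  refine U.mono (iSup_le fun i => Ult.le_of fun V hV => ?_) hU
  exact (bv_iff P V).2 (h V i hV)

/-- A represented predicate that forces every `d i` forces their infimum. -/
theorem inf_intro {ι : Sort*} (d : ι → B) (P : Ult B → Prop) [Rep P]
    (h : ∀ U i, P U → U.P (d i)) (U : Ult B) (hU : P U) : U.P (⨅ i, d i) := by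
  refine U.mono (le_iInf fun i => Ult.le_of fun V hV => ?_) ((bv_iff P U).2 hU)
  exact h V i ((bv_iff P V).1 hV)

theorem Ult.E_intro (U : Ult B) (y : Nm B) (i : y.ι) (h : U.P (y.val i)) :
    U.E (U.cl (y.fn i)) (U.cl y) := U.mono (Nm.val_le_mem y i) h

/-- To prove a represented property of all elements of `y`, it suffices to treat the listed ones. -/
theorem mem_elim (y : Nm B) (P : ∀ U : Ult B, U.M → Prop) [∀ x, Rep (fun U => P U (U.cl x))]
    (h : ∀ U i, U.P (y.val i) → P U (U.cl (y.fn i))) (U : Ult B) (a : U.M)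
    (ha : U.E a (U.cl y)) : P U a := by
  obtain ⟨x, rfl⟩ := U.cl_surj a
  refine sup_elim (fun j => y.val j ⊓ Nm.eqv x (y.fn j)) (fun U => P U (U.cl x)) ?_ U ha
  intro V i hV
  rw [V.inf, ← V.cl_eq] at hV
  rw [hV.2]
  exact h V i hV.1

theorem Ult.finset_sup (U : Ult B) {ι : Type*} (s : Finset ι) (d : ι → B) :
    U.P (s.sup d) ↔ ∃ i ∈ s, U.P (d i) := by
  classical
  induction s using Finset.induction_on with
  | empty => simp [U.bot]
  | insert a s _ ih => simp [U.sup, ih]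

theorem Ult.finset_inf (U : Ult B) {ι : Type*} (s : Finset ι) (d : ι → B) :
    U.P (s.inf d) ↔ ∀ i ∈ s, U.P (d i) := by
  classical
  induction s using Finset.induction_on with
  | empty => simp [U.top]
  | insert a s _ ih => simp [U.inf, ih]

theorem Ult.iSup_fin (U : Ult B) {ι : Type*} [Finite ι] (d : ι → B) :
    U.P (⨆ i, d i) ↔ ∃ i, U.P (d i) := by
  have := Fintype.ofFinite ι
  rw [← Finset.sup_univ_eq_iSup, U.finset_sup]
  simp

theorem Ult.E_fin (U : Ult B) (y : Nm B) [Finite y.ι] (a : U.M) :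
    U.E a (U.cl y) ↔ ∃ i, U.P (y.val i) ∧ a = U.cl (y.fn i) := by
  obtain ⟨x, rfl⟩ := U.cl_surj a
  simp only [U.E_cl, Nm.mem, U.iSup_fin, U.inf, U.cl_eq]

theorem Ult.ext' (U : Ult B) (a b : U.M) (h : ∀ z, U.E z a ↔ U.E z b) : a = b := by
  obtain ⟨x, rfl⟩ := U.cl_surj a
  obtain ⟨y, rfl⟩ := U.cl_surj b
  let P : Ult B → Prop := fun V => ∀ z, V.E z (V.cl x) ↔ V.E z (V.cl y)
  rw [U.cl_eq]
  refine U.mono (Nm.le_eqv (c := bv P) (fun i => Ult.le_of fun V hV => ?_)
    (fun i => Ult.le_of fun V hV => ?_)) ((bv_iff P U).2 h)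
  · rw [V.inf, bv_iff] at hV
    exact (hV.1 _).1 (V.E_intro x i hV.2)
  · rw [V.inf, bv_iff] at hV
    exact (hV.1 _).2 (V.E_intro y i hV.2)

/-- Separation for represented predicates. -/
theorem exists_sep (x : Nm B) (Q : ∀ U : Ult B, U.M → Prop) [∀ z, Rep (fun U => Q U (U.cl z))] :
    ∃ v : x.ι → B, ∀ (U : Ult B) a, U.E a (U.cl ⟨x.ι, x.fn, v⟩) ↔ U.E a (U.cl x) ∧ Q U a := by
  refine ⟨fun i => x.val i ⊓ bv (fun U => Q U (U.cl (x.fn i))), fun U a => ⟨?_, ?_⟩⟩
  · refine mem_elim _ (fun U a => U.E a (U.cl x) ∧ Q U a) ?_ U a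
    intro V i hV
    simp only [V.inf, bv_iff] at hV
    exact ⟨V.E_intro x i hV.1, hV.2⟩
  · rintro ⟨h1, h2⟩
    refine mem_elim x (fun U a => Q U a → U.E a (U.cl ⟨x.ι, x.fn,
      fun i => x.val i ⊓ bv (fun U => Q U (U.cl (x.fn i)))⟩)) ?_ U a h1 h2
    intro V i hV hQ
    refine V.E_intro ⟨x.ι, x.fn, _⟩ i ?_
    simp only [V.inf, bv_iff]
    exact ⟨hV, hQ⟩

/-- Collection for represented predicates. -/
theorem exists_collect (x : Nm B) (Q : ∀ U : Ult B, U.M → U.M → Prop)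
    [∀ z z', Rep (fun U => Q U (U.cl z) (U.cl z'))] :
    ∃ y : Nm B, ∀ (U : Ult B) a, U.E a (U.cl x) → (∃ b, Q U a b) →
      ∃ b, U.E b (U.cl y) ∧ Q U a b := by
  have := fun i : x.ι => exists_witness (fun U b => Q U (U.cl (x.fn i)) b)
  choose w hw using this
  refine ⟨⟨x.ι, w, fun _ => ⊤⟩, fun U a => ?_⟩
  refine mem_elim x (fun U a => (∃ b, Q U a b) →
      ∃ b, U.E b (U.cl ⟨x.ι, w, fun _ => ⊤⟩) ∧ Q U a b) ?_ U a
  intro V i _ h
  exact ⟨_, V.E_intro ⟨x.ι, w, fun _ => ⊤⟩ i V.top, hw i V h⟩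

theorem rep_sat (φ : Fml) (v : ℕ → Nm B) : Rep (fun U : Ult B => Sat U.E φ (fun n => U.cl (v n))) := by
  induction φ generalizing v with
  | mem i j => exact Rep.mem _ _
  | eq i j => exact Rep.eq _ _
  | neg φ ih => exact @Rep.not _ _ _ (ih v)
  | and φ ψ ih1 ih2 => exact @Rep.and _ _ _ _ (ih1 v) (ih2 v)
  | all i φ ih =>
    refine @Rep.all _ _ (fun U a => Sat U.E φ (Function.update (fun n => U.cl (v n)) i a))
      fun x => ?_
    refine @Rep.congr _ _ _ _ (ih (Function.update v i x)) fun U => ?_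
    rw [← Function.comp_def U.cl, Function.comp_update]
    rfl

instance rep_emp (x : Nm B) : Rep (fun U : Ult B => Emp U.E (U.cl x)) := by
  unfold Emp; infer_instance

instance rep_suc (x y : Nm B) : Rep (fun U : Ult B => Suc U.E (U.cl x) (U.cl y)) := by
  unfold Suc; infer_instance

instance rep_ind (x : Nm B) : Rep (fun U : Ult B => Ind U.E (U.cl x)) := by
  unfold Ind; infer_instance

instance rep_pr (x y p : Nm B) : Rep (fun U : Ult B => Pr U.E (U.cl x) (U.cl y) (U.cl p)) := by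
  unfold Pr; infer_instance

instance rep_ap (f x y : Nm B) : Rep (fun U : Ult B => Ap U.E (U.cl f) (U.cl x) (U.cl y)) := by
  unfold Ap; infer_instance

instance rep_fn (A f : Nm B) (R : ∀ U : Ult B, U.M → U.M → Prop)
    [∀ z z', Rep (fun U => R U (U.cl z) (U.cl z'))] :
    Rep (fun U : Ult B => Fn U.E (U.cl A) (R U) (U.cl f)) := by
  unfold Fn; infer_instance

instance rep_le (P Q : ∀ U : Ult B, U.M → Prop) [∀ z, Rep (fun U => P U (U.cl z))]
    [∀ z, Rep (fun U => Q U (U.cl z))] : Rep (fun U : Ult B => Le U.E (P U) (Q U)) := by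
  unfold Le; infer_instance

instance rep_lt (X Y : Nm B) : Rep (fun U : Ult B => Lt U.E (U.cl X) (U.cl Y)) := by
  unfold Lt; infer_instance

end Pool.Agent.Lib.ForcingU
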